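import Mathlib

set_option autoImplicit false

namespace Pool.Agent.H.MP_e21d7a_al

open Filter Topology Matrix

lemma osc {V : Type} [AddCommGroup V] [Module ℝ V] (L : ℕ → Set V) (C : ℝ) (hC : 1 ≤ C)
    (hmono : ∀ j k, j ≤ k → L k ⊆ L j) (hsm : ∀ j (r : ℝ), 0 ≤ r → ∀ X ∈ L j, r • X ∈ L j)
    (hst : ∀ j, ∃ j1 j2, j ≤ j1 ∧ j1 ≤ j2 ∧ ∃ g : V →ₗ[ℝ] ℝ, (∀ X ∈ L j2, X ≠ 0 → 0 < g X) ∧
      ∀ U ∈ L j2, ∀ X ∈ L j2, g X ≤ g U → C • U - X ∈ L j1) (N : ℕ) :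
    ∀ j, ∃ J, j ≤ J ∧ ∀ X ∈ L J, ∀ Y ∈ L J, X ≠ 0 → Y ≠ 0 → ∃ a b : ℝ, 0 < b ∧ a • X - Y ∈ L j ∧
      Y - b • X ∈ L j ∧ a - b ≤ (1 - 1 / (2 * C)) ^ N * C ^ 2 * b := by
  have hC0 : 0 < C := by linarith
  induction N with
  | zero =>
    intro j
    obtain ⟨j1, j2, h1, h2, g, hg, hs⟩ := hst j
    refine ⟨j2, h1.trans h2, fun X hX Y hY hX0 hY0 => ?_⟩
    have gX := hg X hX hX0
    have gY := hg Y hY hY0
    have hr : 0 < g Y / g X := div_pos gY gX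
    have e : g ((g Y / g X) • X) = g Y := by rw [map_smul, smul_eq_mul]; field_simp
    have hX' := hsm j2 _ hr.le X hX
    refine ⟨C * (g Y / g X), g Y / g X / C, by positivity, ?_, ?_, ?_⟩
    · rw [mul_smul]; exact hmono _ _ h1 (hs _ hX' _ hY e.ge)
    · have := hsm j1 C⁻¹ (by positivity) _ (hs _ hY _ hX' e.le)
      rw [smul_sub, smul_smul, inv_mul_cancel₀ hC0.ne', one_smul, smul_smul] at this
      rw [div_eq_inv_mul (g Y / g X)]
      exact hmono _ _ h1 this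
    · have : 0 < g Y / g X / C := by positivity
      have e2 : C ^ 2 * (g Y / g X / C) = C * (g Y / g X) := by field_simp
      rw [pow_zero, one_mul, e2]; linarith
  | succ N ih =>
    intro j
    obtain ⟨j1, j2, h1, h2, g, hg, hs⟩ := hst j
    obtain ⟨J, hJ, hh⟩ := ih j2
    refine ⟨J, h1.trans (h2.trans hJ), fun X hX Y hY hX0 hY0 => ?_⟩
    obtain ⟨a, b, hb, hU, hW, hab⟩ := hh X hX Y hY hX0 hY0
    have hX2 := hmono _ _ hJ hX
    have gX := hg X hX2 hX0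
    have gn : ∀ Z ∈ L j2, 0 ≤ g Z := fun Z hZ => by
      by_cases h : Z = 0
      · rw [h, map_zero]
      · exact (hg Z hZ h).le
    have esum : g (a • X - Y) + g (Y - b • X) = (a - b) * g X := by
      simp only [map_sub, map_smul, smul_eq_mul]; ring
    have hab0 : 0 ≤ a - b := by
      have := add_nonneg (gn _ hU) (gn _ hW)
      rw [esum] at this
      exact nonneg_of_mul_nonneg_left this gX
    have hX' := hsm j2 ((a - b) / 2) (by positivity) X hX2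
    have e : g (((a - b) / 2) • X) = (a - b) / 2 * g X := by rw [map_smul, smul_eq_mul]
    have hθ : 0 ≤ 1 - 1 / (2 * C) := by
      rw [sub_nonneg, div_le_one (by positivity)]; linarith
    have hd : 0 ≤ (a - b) / (2 * C) := by positivity
    have hfin : (a - b) - (a - b) / (2 * C) ≤ (1 - 1 / (2 * C)) ^ (N + 1) * C ^ 2 * b := by
      calc (a - b) - (a - b) / (2 * C) = (1 - 1 / (2 * C)) * (a - b) := by ring
        _ ≤ (1 - 1 / (2 * C)) * ((1 - 1 / (2 * C)) ^ N * C ^ 2 * b) :=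
          mul_le_mul_of_nonneg_left hab hθ
        _ = _ := by ring
    have key : ∀ Z ∈ L j2, g (((a - b) / 2) • X) ≤ g Z → Z - ((a - b) / (2 * C)) • X ∈ L j := by
      intro Z hZ hle
      have := hsm j1 C⁻¹ (by positivity) _ (hs _ hZ _ hX' hle)
      rw [smul_sub, smul_smul, inv_mul_cancel₀ hC0.ne', one_smul, smul_smul] at this
      have e2 : (a - b) / (2 * C) = C⁻¹ * ((a - b) / 2) := by field_simp
      rw [e2]
      exact hmono _ _ h1 this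
    rcases le_total (g (Y - b • X)) (g (a • X - Y)) with h | h
    · refine ⟨a - (a - b) / (2 * C), b, hb, ?_, hmono _ _ (h1.trans h2) hW, by linarith⟩
      have := key _ hU (by rw [e]; linarith)
      convert this using 1
      rw [sub_smul]; abel
    · refine ⟨a, b + (a - b) / (2 * C), by positivity, hmono _ _ (h1.trans h2) hU, ?_, ?_⟩
      · have := key _ hW (by rw [e]; linarith)
        convert this using 1
        rw [add_smul]; abel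
      · have : (1 - 1 / (2 * C)) ^ (N + 1) * C ^ 2 * b ≤
            (1 - 1 / (2 * C)) ^ (N + 1) * C ^ 2 * (b + (a - b) / (2 * C)) :=
          mul_le_mul_of_nonneg_left (by linarith) (by positivity)
        linarith

variable {n : ℕ}

lemma close (D : ℝ) (hD : 0 ≤ D) (L : Set (Fin n → ℝ)) (hL : ∀ v ∈ L, ‖v‖ ≤ D * ∑ i, v i)
    (X Y : Fin n → ℝ) (hX : X ∈ L) (hX0 : X ≠ 0) (a b δ : ℝ) (hb : 0 < b) (h1 : a • X - Y ∈ L)
    (h2 : Y - b • X ∈ L) (hab : a - b ≤ δ * b) :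
    ‖(∑ i, X i)⁻¹ • X - (∑ i, Y i)⁻¹ • Y‖ ≤ 2 * D * δ := by
  have nn : ∀ v ∈ L, 0 ≤ ∑ i, v i := by
    intro v hv
    by_contra h
    push Not at h
    have h3 := hL v hv
    have h4 : D * ∑ i, v i ≤ 0 := mul_nonpos_of_nonneg_of_nonpos hD h.le
    have : v = 0 := norm_le_zero_iff.1 (h3.trans h4)
    simp [this] at h
  have pX : 0 < ∑ i, X i := by
    rcases (nn X hX).eq_or_lt with h | h
    · have := hL X hX
      rw [← h, mul_zero] at this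
      exact absurd (norm_le_zero_iff.1 this) hX0
    · exact h
  have s1 := nn _ h1
  have s2 := nn _ h2
  have n2 := hL _ h2
  have nX := hL _ hX
  simp only [Pi.sub_apply, Pi.smul_apply, smul_eq_mul, Finset.sum_sub_distrib,
    ← Finset.mul_sum] at s1 s2 n2
  set x := ∑ i, X i
  set y := ∑ i, Y i
  have pY : 0 < y := by nlinarith
  have e : x⁻¹ • X - y⁻¹ • Y = y⁻¹ • (((y - b * x) / x) • X - (Y - b • X)) := by
    ext i
    simp only [Pi.sub_apply, Pi.smul_apply, smul_eq_mul]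
    field_simp
    ring
  rw [e, norm_smul, Real.norm_eq_abs, abs_of_pos (inv_pos.2 pY), inv_mul_le_iff₀ pY]
  have h5 : ‖((y - b * x) / x) • X‖ ≤ D * (y - b * x) := by
    rw [norm_smul, Real.norm_eq_abs, abs_of_nonneg (by positivity)]
    calc (y - b * x) / x * ‖X‖ ≤ (y - b * x) / x * (D * x) :=
          mul_le_mul_of_nonneg_left nX (by positivity)
      _ = _ := by field_simp
  have h6 : y - b * x ≤ δ * y := by
    have h7 : (a - b) * x ≤ δ * b * x := mul_le_mul_of_nonneg_right hab pX.le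
    have h8 : 0 ≤ δ := by
      by_contra h
      push Not at h
      nlinarith [mul_pos hb pX, mul_neg_of_neg_of_pos h (mul_pos hb pX)]
    nlinarith [mul_le_mul_of_nonneg_left (show b * x ≤ y by linarith) h8]
  calc _ ≤ ‖((y - b * x) / x) • X‖ + ‖Y - b • X‖ := norm_sub_le _ _
    _ ≤ 2 * (D * (y - b * x)) := by linarith
    _ ≤ 2 * (D * (δ * y)) := by gcongr
    _ = _ := by ring

lemma uniq {V : Type} [TopologicalSpace V] [T2Space V] (f : ℕ → V) (x : V)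
    (hx : Tendsto f atTop (𝓝 x)) (hne : ∀ᶠ k in atTop, f k ≠ f (k + 1)) :
    ∃! y, AccPt y (𝓟 (Set.range f)) := by
  refine ⟨x, ?_, fun y hy => ?_⟩
  · beta_reduce
    rw [accPt_iff_nhds]
    intro U hU
    have h1 := hx.eventually hU
    have h2 := (tendsto_add_atTop_nat 1).eventually h1
    obtain ⟨k, ⟨hk1, hk2⟩, hk3⟩ := ((h1.and h2).and hne).exists
    by_cases h : f k = x
    · exact ⟨f (k + 1), ⟨hk2, ⟨_, rfl⟩⟩, fun e => hk3 (h.trans e.symm)⟩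
    · exact ⟨f k, ⟨hk1, ⟨_, rfl⟩⟩, h⟩
  · by_contra hyx
    obtain ⟨U, W, hU, hW, hd⟩ := t2_separation_nhds hyx
    obtain ⟨K, hK⟩ := eventually_atTop.1 (hx.eventually hW)
    refine Set.Infinite.of_accPt (hy.nhds_inter hU) ?_
    refine ((Set.finite_lt_nat K).image f).subset ?_
    rintro _ ⟨h1, k, rfl⟩
    refine ⟨k, ?_, rfl⟩
    by_contra h
    exact Set.disjoint_left.1 hd h1 (hK k (not_lt.1 h))

def W (σ : Fin n → Matrix (Fin n) (Fin n) ℝ) (s : ℕ → Fin n) (k : ℕ) :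
    Matrix (Fin n) (Fin n) ℝ := (List.ofFn fun j : Fin k => σ (s j)).prod

lemma W_succ (σ : Fin n → Matrix (Fin n) (Fin n) ℝ) (s : ℕ → Fin n) (k : ℕ) :
    W σ s (k + 1) = W σ s k * σ (s k) := by
  rw [W, List.ofFn_succ', List.prod_concat]; rfl

lemma W_inv (σ : Fin n → Matrix (Fin n) (Fin n) ℝ) (hσ : ∀ i, σ i * σ i = 1) (s : ℕ → Fin n)
    (k : ℕ) : ∃ Q : Matrix (Fin n) (Fin n) ℝ, ∀ v, Q *ᵥ (W σ s k *ᵥ v) = v := by
  induction k with
  | zero => exact ⟨1, fun v => by simp [W]⟩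
  | succ k ih =>
    obtain ⟨Q, hQ⟩ := ih
    refine ⟨σ (s k) * Q, fun v => ?_⟩
    rw [W_succ, ← mulVec_mulVec, ← mulVec_mulVec, hQ, mulVec_mulVec, hσ, one_mulVec]

structure Cones (σ : Fin n → Matrix (Fin n) (Fin n) ℝ) (s : ℕ → Fin n)
    (K : ℕ → ℝ → (Fin n → ℝ) → Prop) (D : ℝ) : Prop where
  hσ : ∀ i, σ i * σ i = 1
  hD : 0 ≤ D
  add : ∀ j c c' v v', K j c v → K j c' v' → K j (c + c') (v + v')
  sm : ∀ j c (r : ℝ) v, 0 ≤ r → K j c v → K j (r * c) (r • v)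
  mono : ∀ j c v, 0 ≤ c → K j c v → K j 0 v
  nrm : ∀ j v, K j 0 v → ‖v‖ ≤ D * ∑ i, v i
  inv : ∀ j v, K (j + 1) 0 v → K j 0 (σ (s j) *ᵥ v)

section
variable {σ : Fin n → Matrix (Fin n) (Fin n) ℝ} {s : ℕ → Fin n}
  {K : ℕ → ℝ → (Fin n → ℝ) → Prop} {D : ℝ}

def LL (σ : Fin n → Matrix (Fin n) (Fin n) ℝ) (s : ℕ → Fin n) (K : ℕ → ℝ → (Fin n → ℝ) → Prop)
    (j : ℕ) : Set (Fin n → ℝ) := {X | ∃ x, K j 0 x ∧ X = W σ s j *ᵥ x}

lemma Cones.Lmono (h : Cones σ s K D) (j k : ℕ) (hjk : j ≤ k) : LL σ s K k ⊆ LL σ s K j := by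
  induction k, hjk using Nat.le_induction with
  | base => exact subset_rfl
  | succ k _ ih =>
    refine subset_trans ?_ ih
    rintro _ ⟨x, hx, rfl⟩
    exact ⟨_, h.inv k x hx, by rw [W_succ, mulVec_mulVec]⟩

lemma Cones.L0 (h : Cones σ s K D) : ∀ v ∈ LL σ s K 0, ‖v‖ ≤ D * ∑ i, v i := by
  rintro _ ⟨x, hx, rfl⟩
  simpa [W] using h.nrm 0 x hx

lemma Cones.pos (h : Cones σ s K D) (j : ℕ) (x : Fin n → ℝ) (hx : K j 0 x) (h0 : x ≠ 0) :
    0 < ∑ i, x i := by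
  by_contra h1
  push Not at h1
  exact h0 (norm_le_zero_iff.1 ((h.nrm j x hx).trans (mul_nonpos_of_nonneg_of_nonpos h.hD h1)))

lemma Cones.ne (h : Cones σ s K D) (j : ℕ) (x : Fin n → ℝ) (h0 : x ≠ 0) : W σ s j *ᵥ x ≠ 0 := by
  intro e
  obtain ⟨Q, hQ⟩ := W_inv σ h.hσ s j
  apply h0
  rw [← hQ x, e, mulVec_zero]

lemma Cones.Lpos (h : Cones σ s K D) (j : ℕ) (x : Fin n → ℝ) (hx : K j 0 x) (h0 : x ≠ 0) :
    0 < ∑ i, (W σ s j *ᵥ x) i := by
  obtain ⟨y, hy, e⟩ := h.Lmono 0 j (Nat.zero_le _) ⟨x, hx, rfl⟩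
  have e' : W σ s j *ᵥ x = y := by simpa [W] using e
  rw [e']
  exact h.pos 0 y hy (e' ▸ h.ne j x h0)

lemma Cones.conv (h : Cones σ s K D) (C : ℝ) (hC : 1 ≤ C)
    (hst : ∀ j, ∃ j1 j2, j ≤ j1 ∧ j1 ≤ j2 ∧ ∃ P, W σ s j2 = W σ s j1 * P ∧ ∀ v, K j2 0 v →
      K j1 ((∑ i, v i) / C) (P *ᵥ v) ∧ K j1 (-(C * ∑ i, v i)) (-(P *ᵥ v)))
    (β : ℕ → Fin n → ℝ)
    (hβ : ∀ J, ∀ᶠ k in atTop, ∃ j, J ≤ j ∧ ∃ x, K j 0 x ∧ x ≠ 0 ∧ β k = W σ s j *ᵥ x) :
    ∃ x, Tendsto (fun k => (∑ i, β k i)⁻¹ • β k) atTop (𝓝 x) := by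
  apply cauchySeq_tendsto_of_complete
  have hC0 : 0 < C := by linarith
  have hC2 : 1 ≤ C ^ 2 := one_le_pow₀ hC
  have ho := osc (LL σ s K) (C ^ 2) hC2 h.Lmono (by
    rintro j r hr _ ⟨x, hx, rfl⟩
    exact ⟨r • x, by simpa using h.sm j 0 r x hr hx, by rw [mulVec_smul]⟩) (by
    intro j
    obtain ⟨j1, j2, h1, h2, P, hP, hv⟩ := hst j
    obtain ⟨Q, hQ⟩ := W_inv σ h.hσ s j2
    refine ⟨j1, j2, h1, h2, (∑ i, LinearMap.proj i : (Fin n → ℝ) →ₗ[ℝ] ℝ).comp Q.mulVecLin, ?_, ?_⟩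
    · rintro _ ⟨x, hx, rfl⟩ h0
      simp only [LinearMap.comp_apply, mulVecLin_apply, hQ, LinearMap.sum_apply,
        LinearMap.proj_apply]
      exact h.pos j2 x hx (fun e => h0 (by rw [e, mulVec_zero]))
    · rintro _ ⟨u, hu, rfl⟩ _ ⟨x, hx, rfl⟩ hle
      simp only [LinearMap.comp_apply, mulVecLin_apply, hQ, LinearMap.sum_apply,
        LinearMap.proj_apply] at hle
      refine ⟨C ^ 2 • (P *ᵥ u) + -(P *ᵥ x), h.mono j1 _ _ ?_
        (h.add _ _ _ _ _ (h.sm _ _ (C ^ 2) _ (by positivity) (hv u hu).1) (hv x hx).2), ?_⟩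
      · have e : C ^ 2 * ((∑ i, u i) / C) = C * ∑ i, u i := by field_simp
        rw [e]; nlinarith
      · rw [hP, mulVec_add, mulVec_smul, mulVec_neg, mulVec_mulVec, mulVec_mulVec,
          sub_eq_add_neg])
  rw [Metric.cauchySeq_iff]
  intro ε hε
  have hθ : 0 ≤ 1 - 1 / (2 * C ^ 2) := by
    rw [sub_nonneg, div_le_one (by positivity)]; linarith
  have hθ1 : 1 - 1 / (2 * C ^ 2) < 1 := by
    have : 0 < 1 / (2 * C ^ 2) := by positivity
    linarith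
  have ht := ((tendsto_pow_atTop_nhds_zero_of_lt_one hθ hθ1).mul_const ((C ^ 2) ^ 2)).const_mul
    (2 * D)
  rw [zero_mul, mul_zero] at ht
  obtain ⟨N, hN⟩ := (ht.eventually (gt_mem_nhds hε)).exists
  obtain ⟨J, -, hJ⟩ := ho N 0
  obtain ⟨K0, hK0⟩ := eventually_atTop.1 (hβ J)
  refine ⟨K0, fun k hk m hm => ?_⟩
  obtain ⟨j, hj, x, hx, hx0, e⟩ := hK0 k hk
  obtain ⟨j', hj', y, hy, hy0, e'⟩ := hK0 m hm
  have hX : β k ∈ LL σ s K J := h.Lmono _ _ hj ⟨x, hx, e⟩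
  have hX0 : β k ≠ 0 := e ▸ h.ne j x hx0
  obtain ⟨a, b, hb, h1, h2, h3⟩ := hJ _ hX _ (h.Lmono _ _ hj' ⟨y, hy, e'⟩) hX0
    (e' ▸ h.ne j' y hy0)
  rw [dist_eq_norm]
  exact (close D h.hD _ h.L0 _ _ (h.Lmono 0 J (Nat.zero_le _) hX) hX0 a b _ hb h1 h2 h3).trans_lt hN

lemma Cones.fin (h : Cones σ s K D) (hd : ∀ i j, i ≠ j → σ i j j = 1) (hs : ∀ k, s k ≠ s (k + 1))
    (hβ : ∀ᶠ k in atTop, ∃ j, ∃ x, K j 0 x ∧ x ≠ 0 ∧
      W σ s k *ᵥ Pi.single (s k) (1 : ℝ) = W σ s j *ᵥ x)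
    (hx : ∃ x, Tendsto (fun k => (∑ i, (W σ s k *ᵥ Pi.single (s k) (1 : ℝ)) i)⁻¹ •
      (W σ s k *ᵥ Pi.single (s k) (1 : ℝ))) atTop (𝓝 x)) :
    ∃! y, AccPt y (𝓟 (Set.range fun k => (∑ i, (W σ s k *ᵥ Pi.single (s k) (1 : ℝ)) i)⁻¹ •
      (W σ s k *ᵥ Pi.single (s k) (1 : ℝ)))) := by
  obtain ⟨x, hx⟩ := hx
  refine uniq _ x hx ?_
  filter_upwards [(tendsto_add_atTop_nat 1).eventually hβ] with k ⟨j, y, hy, hy0, e⟩ e2
  have hp := h.Lpos j y hy hy0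
  rw [← e] at hp
  obtain ⟨Q, hQ⟩ := W_inv σ h.hσ s k
  have e3 := congrArg (fun v => (Q *ᵥ v) (s (k + 1))) e2
  set c := ∑ i, (W σ s (k + 1) *ᵥ Pi.single (s (k + 1)) (1 : ℝ)) i
  simp only [mulVec_smul, W_succ, ← mulVec_mulVec, hQ] at e3
  simp [(hs k).symm, hd _ _ (hs k)] at e3
  exact hp.ne e3

end

section cox
variable {M : CoxeterMatrix (Fin n)} (s : ℕ → Fin n)

def Desc (M : CoxeterMatrix (Fin n)) (s : ℕ → Fin n) (j : ℕ) (a : Fin n) : Prop :=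
  ∃ l : List (Fin n), l.length + 1 = j ∧
    M.toCoxeterSystem.wordProd (List.ofFn fun i : Fin j => s i) =
      M.toCoxeterSystem.wordProd l * M.toCoxeterSystem.simple a

lemma wp_succ (j : ℕ) : M.toCoxeterSystem.wordProd (List.ofFn fun i : Fin (j + 1) => s i) =
    M.toCoxeterSystem.wordProd (List.ofFn fun i : Fin j => s i) *
      M.toCoxeterSystem.simple (s j) := by
  rw [List.ofFn_succ', CoxeterSystem.wordProd_concat]; rfl

lemma desc_self (j : ℕ) : Desc M s (j + 1) (s j) := ⟨_, by simp, wp_succ s j⟩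

lemma desc_step (j : ℕ) (a : Fin n) (h : Desc M s j a) (h2 : M a (s j) = 2) :
    Desc M s (j + 1) a := by
  obtain ⟨l, hl, e⟩ := h
  refine ⟨l.concat (s j), by simp [hl], ?_⟩
  rw [wp_succ, e, CoxeterSystem.wordProd_concat, mul_assoc, mul_assoc]
  congr 1
  have := M.toCoxeterSystem.simple_mul_simple_pow a (s j)
  rw [h2, pow_two, mul_eq_one_iff_eq_inv, _root_.mul_inv_rev, CoxeterSystem.inv_simple,
    CoxeterSystem.inv_simple] at this
  exact this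

lemma desc_not (hr : ∀ k : ℕ, M.toCoxeterSystem.IsReduced (List.ofFn fun j : Fin k => s j))
    (j : ℕ) : ¬ Desc M s j (s j) := by
  rintro ⟨l, hl, e⟩
  have h1 := hr (j + 1)
  rw [CoxeterSystem.IsReduced, wp_succ, e, mul_assoc, CoxeterSystem.simple_mul_simple_self,
    mul_one, List.length_ofFn] at h1
  have := M.toCoxeterSystem.length_wordProd_le l
  omega

end cox

end Pool.Agent.H.MP_e21d7a_al
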