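import Pool.Agent.H.MP_e21d7a_al.A

set_option autoImplicit false
set_option linter.unnecessarySeqFocus false

namespace Pool.Agent.H.MP_e21d7a_al

open Filter Topology Matrix

def F6 (k c t h a b : ℝ) : Prop :=
  c ≤ 10 * h + a ∧ c ≤ 10 * a + h ∧ c ≤ 10 * h + b ∧ c ≤ 10 * b + h ∧
    c ≤ -10 * t + k * h + 10 * a + 10 * b ∧ c ≤ 10 * t + h + a + b

def KA (t : Fin 4) (c : ℝ) (v : Fin 4 → ℝ) : Prop :=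
  ![F6 21 c (v 0) (v 1) (v 2) (v 3), F6 21 c (v 1) (v 0) (v 2) (v 3),
    F6 61 c (v 2) (v 3) (v 0) (v 1), F6 61 c (v 3) (v 2) (v 0) (v 1)] t

noncomputable def sA (i : Fin 4) (v : Fin 4 → ℝ) : Fin 4 → ℝ :=
  ![![-v 0 + 4 * v 1 + 2 * v 2 + 2 * v 3, v 1, v 2, v 3],
    ![v 0, -v 1 + 4 * v 0 + 2 * v 2 + 2 * v 3, v 2, v 3],
    ![v 0, v 1, -v 2 + 2 * v 0 + 2 * v 1 + 12 * v 3, v 3],
    ![v 0, v 1, v 2, -v 3 + 2 * v 0 + 2 * v 1 + 12 * v 2]] i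

lemma KA_add (t : Fin 4) (c c' : ℝ) (v v' : Fin 4 → ℝ) (h : KA t c v) (h' : KA t c' v') :
    KA t (c + c') (v + v') := by
  fin_cases t <;> simp [KA, F6] at h h' ⊢ <;> obtain ⟨_, _, _, _, _, _⟩ := h <;>
    obtain ⟨_, _, _, _, _, _⟩ := h' <;> refine ⟨?_, ?_, ?_, ?_, ?_, ?_⟩ <;> linarith

lemma F6_sm (k c t h a b r : ℝ) (hr : 0 ≤ r) (H : F6 k c t h a b) :
    F6 k (r * c) (r * t) (r * h) (r * a) (r * b) := by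
  obtain ⟨h1, h2, h3, h4, h5, h6⟩ := H
  refine ⟨?_, ?_, ?_, ?_, ?_, ?_⟩
  · nlinarith [mul_le_mul_of_nonneg_left h1 hr]
  · nlinarith [mul_le_mul_of_nonneg_left h2 hr]
  · nlinarith [mul_le_mul_of_nonneg_left h3 hr]
  · nlinarith [mul_le_mul_of_nonneg_left h4 hr]
  · nlinarith [mul_le_mul_of_nonneg_left h5 hr]
  · nlinarith [mul_le_mul_of_nonneg_left h6 hr]

lemma KA_sm (t : Fin 4) (c r : ℝ) (v : Fin 4 → ℝ) (hr : 0 ≤ r) (h : KA t c v) :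
    KA t (r * c) (r • v) := by
  fin_cases t <;> exact F6_sm _ _ _ _ _ _ _ hr h

lemma KA_mono (t : Fin 4) (c : ℝ) (v : Fin 4 → ℝ) (hc : 0 ≤ c) (h : KA t c v) : KA t 0 v := by
  fin_cases t <;> simp [KA, F6] at h ⊢ <;> obtain ⟨_, _, _, _, _, _⟩ := h <;>
    refine ⟨?_, ?_, ?_, ?_, ?_, ?_⟩ <;> linarith

lemma KA_nrm (t : Fin 4) (v : Fin 4 → ℝ) (h : KA t 0 v) : ‖v‖ ≤ 2 * ∑ i, v i := by
  have : 0 ≤ ∑ i, v i ∧ ∀ a, |v a| ≤ 2 * ∑ i, v i := by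
    fin_cases t <;> simp [KA, F6, Fin.sum_univ_four, Fin.forall_fin_succ, abs_le] at h ⊢ <;>
      obtain ⟨_, _, _, _, _, _⟩ := h <;>
      refine ⟨?_, ⟨?_, ?_⟩, ⟨?_, ?_⟩, ⟨?_, ?_⟩, ?_, ?_⟩ <;> linarith
  exact (pi_norm_le_iff_of_nonneg (by linarith [this.1])).2 this.2

lemma KA_inv (t u : Fin 4) (htu : t ≠ u) (v : Fin 4 → ℝ) (h : KA u 0 v) : KA t 0 (sA u v) := by
  fin_cases t <;> fin_cases u <;> simp [KA, F6, sA] at htu h ⊢ <;>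
    obtain ⟨_, _, _, _, _, _⟩ := h <;> refine ⟨?_, ?_, ?_, ?_, ?_, ?_⟩ <;> linarith

def par (a b : Fin 4) : Prop := a.val / 2 ≠ b.val / 2

instance (a b : Fin 4) : Decidable (par a b) := inferInstanceAs (Decidable (_ ≠ _))

lemma T010 (x0 x1 x2 x3 c : ℝ) (e : 20000 * c = x0 + x1 + x2 + x3) (h : F6 21 0 x0 x1 x2 x3) :
    F6 21 c (-x0 + 4 * x1 + 2 * x2 + 2 * x3) (-x1 + 4 * (-x0 + 4 * x1 + 2 * x2 + 2 * x3) + 2 * x2 + 2 * x3) x2 x3 ∧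
    F6 21 (-(20000 * (x0 + x1 + x2 + x3))) (-(-x0 + 4 * x1 + 2 * x2 + 2 * x3)) (-(-x1 + 4 * (-x0 + 4 * x1 + 2 * x2 + 2 * x3) + 2 * x2 + 2 * x3)) (-x2) (-x3) := by
  obtain ⟨_, _, _, _, _, _⟩ := h
  refine ⟨⟨?_, ?_, ?_, ?_, ?_, ?_⟩, ?_, ?_, ?_, ?_, ?_, ?_⟩ <;> linarith

lemma T012 (x0 x1 x2 x3 c : ℝ) (e : 20000 * c = x0 + x1 + x2 + x3) (h : F6 61 0 x2 x3 x0 x1) :
    F6 21 c x0 (-x1 + 4 * x0 + 2 * (-x2 + 2 * x0 + 2 * x1 + 12 * x3) + 2 * x3) (-x2 + 2 * x0 + 2 * x1 + 12 * x3) x3 ∧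
    F6 21 (-(20000 * (x0 + x1 + x2 + x3))) (-x0) (-(-x1 + 4 * x0 + 2 * (-x2 + 2 * x0 + 2 * x1 + 12 * x3) + 2 * x3)) (-(-x2 + 2 * x0 + 2 * x1 + 12 * x3)) (-x3) := by
  obtain ⟨_, _, _, _, _, _⟩ := h
  refine ⟨⟨?_, ?_, ?_, ?_, ?_, ?_⟩, ?_, ?_, ?_, ?_, ?_, ?_⟩ <;> linarith

lemma T013 (x0 x1 x2 x3 c : ℝ) (e : 20000 * c = x0 + x1 + x2 + x3) (h : F6 61 0 x3 x2 x0 x1) :
    F6 21 c x0 (-x1 + 4 * x0 + 2 * x2 + 2 * (-x3 + 2 * x0 + 2 * x1 + 12 * x2)) x2 (-x3 + 2 * x0 + 2 * x1 + 12 * x2) ∧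
    F6 21 (-(20000 * (x0 + x1 + x2 + x3))) (-x0) (-(-x1 + 4 * x0 + 2 * x2 + 2 * (-x3 + 2 * x0 + 2 * x1 + 12 * x2))) (-x2) (-(-x3 + 2 * x0 + 2 * x1 + 12 * x2)) := by
  obtain ⟨_, _, _, _, _, _⟩ := h
  refine ⟨⟨?_, ?_, ?_, ?_, ?_, ?_⟩, ?_, ?_, ?_, ?_, ?_, ?_⟩ <;> linarith

lemma T021 (x0 x1 x2 x3 c : ℝ) (e : 20000 * c = x0 + x1 + x2 + x3) (h : F6 21 0 x1 x0 x2 x3) :
    F6 21 c x0 (-x1 + 4 * x0 + 2 * x2 + 2 * x3) (-x2 + 2 * x0 + 2 * (-x1 + 4 * x0 + 2 * x2 + 2 * x3) + 12 * x3) x3 ∧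
    F6 21 (-(20000 * (x0 + x1 + x2 + x3))) (-x0) (-(-x1 + 4 * x0 + 2 * x2 + 2 * x3)) (-(-x2 + 2 * x0 + 2 * (-x1 + 4 * x0 + 2 * x2 + 2 * x3) + 12 * x3)) (-x3) := by
  obtain ⟨_, _, _, _, _, _⟩ := h
  refine ⟨⟨?_, ?_, ?_, ?_, ?_, ?_⟩, ?_, ?_, ?_, ?_, ?_, ?_⟩ <;> linarith

lemma T023 (x0 x1 x2 x3 c : ℝ) (e : 20000 * c = x0 + x1 + x2 + x3) (h : F6 61 0 x3 x2 x0 x1) :
    F6 21 c x0 x1 (-x2 + 2 * x0 + 2 * x1 + 12 * (-x3 + 2 * x0 + 2 * x1 + 12 * x2)) (-x3 + 2 * x0 + 2 * x1 + 12 * x2) ∧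
    F6 21 (-(20000 * (x0 + x1 + x2 + x3))) (-x0) (-x1) (-(-x2 + 2 * x0 + 2 * x1 + 12 * (-x3 + 2 * x0 + 2 * x1 + 12 * x2))) (-(-x3 + 2 * x0 + 2 * x1 + 12 * x2)) := by
  obtain ⟨_, _, _, _, _, _⟩ := h
  refine ⟨⟨?_, ?_, ?_, ?_, ?_, ?_⟩, ?_, ?_, ?_, ?_, ?_, ?_⟩ <;> linarith

lemma T031 (x0 x1 x2 x3 c : ℝ) (e : 20000 * c = x0 + x1 + x2 + x3) (h : F6 21 0 x1 x0 x2 x3) :
    F6 21 c x0 (-x1 + 4 * x0 + 2 * x2 + 2 * x3) x2 (-x3 + 2 * x0 + 2 * (-x1 + 4 * x0 + 2 * x2 + 2 * x3) + 12 * x2) ∧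
    F6 21 (-(20000 * (x0 + x1 + x2 + x3))) (-x0) (-(-x1 + 4 * x0 + 2 * x2 + 2 * x3)) (-x2) (-(-x3 + 2 * x0 + 2 * (-x1 + 4 * x0 + 2 * x2 + 2 * x3) + 12 * x2)) := by
  obtain ⟨_, _, _, _, _, _⟩ := h
  refine ⟨⟨?_, ?_, ?_, ?_, ?_, ?_⟩, ?_, ?_, ?_, ?_, ?_, ?_⟩ <;> linarith

lemma T032 (x0 x1 x2 x3 c : ℝ) (e : 20000 * c = x0 + x1 + x2 + x3) (h : F6 61 0 x2 x3 x0 x1) :
    F6 21 c x0 x1 (-x2 + 2 * x0 + 2 * x1 + 12 * x3) (-x3 + 2 * x0 + 2 * x1 + 12 * (-x2 + 2 * x0 + 2 * x1 + 12 * x3)) ∧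
    F6 21 (-(20000 * (x0 + x1 + x2 + x3))) (-x0) (-x1) (-(-x2 + 2 * x0 + 2 * x1 + 12 * x3)) (-(-x3 + 2 * x0 + 2 * x1 + 12 * (-x2 + 2 * x0 + 2 * x1 + 12 * x3))) := by
  obtain ⟨_, _, _, _, _, _⟩ := h
  refine ⟨⟨?_, ?_, ?_, ?_, ?_, ?_⟩, ?_, ?_, ?_, ?_, ?_, ?_⟩ <;> linarith

lemma T101 (x0 x1 x2 x3 c : ℝ) (e : 20000 * c = x0 + x1 + x2 + x3) (h : F6 21 0 x1 x0 x2 x3) :
    F6 21 c (-x1 + 4 * x0 + 2 * x2 + 2 * x3) (-x0 + 4 * (-x1 + 4 * x0 + 2 * x2 + 2 * x3) + 2 * x2 + 2 * x3) x2 x3 ∧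
    F6 21 (-(20000 * (x0 + x1 + x2 + x3))) (-(-x1 + 4 * x0 + 2 * x2 + 2 * x3)) (-(-x0 + 4 * (-x1 + 4 * x0 + 2 * x2 + 2 * x3) + 2 * x2 + 2 * x3)) (-x2) (-x3) := by
  obtain ⟨_, _, _, _, _, _⟩ := h
  refine ⟨⟨?_, ?_, ?_, ?_, ?_, ?_⟩, ?_, ?_, ?_, ?_, ?_, ?_⟩ <;> linarith

lemma T102 (x0 x1 x2 x3 c : ℝ) (e : 20000 * c = x0 + x1 + x2 + x3) (h : F6 61 0 x2 x3 x0 x1) :
    F6 21 c x1 (-x0 + 4 * x1 + 2 * (-x2 + 2 * x0 + 2 * x1 + 12 * x3) + 2 * x3) (-x2 + 2 * x0 + 2 * x1 + 12 * x3) x3 ∧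
    F6 21 (-(20000 * (x0 + x1 + x2 + x3))) (-x1) (-(-x0 + 4 * x1 + 2 * (-x2 + 2 * x0 + 2 * x1 + 12 * x3) + 2 * x3)) (-(-x2 + 2 * x0 + 2 * x1 + 12 * x3)) (-x3) := by
  obtain ⟨_, _, _, _, _, _⟩ := h
  refine ⟨⟨?_, ?_, ?_, ?_, ?_, ?_⟩, ?_, ?_, ?_, ?_, ?_, ?_⟩ <;> linarith

lemma T103 (x0 x1 x2 x3 c : ℝ) (e : 20000 * c = x0 + x1 + x2 + x3) (h : F6 61 0 x3 x2 x0 x1) :
    F6 21 c x1 (-x0 + 4 * x1 + 2 * x2 + 2 * (-x3 + 2 * x0 + 2 * x1 + 12 * x2)) x2 (-x3 + 2 * x0 + 2 * x1 + 12 * x2) ∧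
    F6 21 (-(20000 * (x0 + x1 + x2 + x3))) (-x1) (-(-x0 + 4 * x1 + 2 * x2 + 2 * (-x3 + 2 * x0 + 2 * x1 + 12 * x2))) (-x2) (-(-x3 + 2 * x0 + 2 * x1 + 12 * x2)) := by
  obtain ⟨_, _, _, _, _, _⟩ := h
  refine ⟨⟨?_, ?_, ?_, ?_, ?_, ?_⟩, ?_, ?_, ?_, ?_, ?_, ?_⟩ <;> linarith

lemma T120 (x0 x1 x2 x3 c : ℝ) (e : 20000 * c = x0 + x1 + x2 + x3) (h : F6 21 0 x0 x1 x2 x3) :
    F6 21 c x1 (-x0 + 4 * x1 + 2 * x2 + 2 * x3) (-x2 + 2 * (-x0 + 4 * x1 + 2 * x2 + 2 * x3) + 2 * x1 + 12 * x3) x3 ∧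
    F6 21 (-(20000 * (x0 + x1 + x2 + x3))) (-x1) (-(-x0 + 4 * x1 + 2 * x2 + 2 * x3)) (-(-x2 + 2 * (-x0 + 4 * x1 + 2 * x2 + 2 * x3) + 2 * x1 + 12 * x3)) (-x3) := by
  obtain ⟨_, _, _, _, _, _⟩ := h
  refine ⟨⟨?_, ?_, ?_, ?_, ?_, ?_⟩, ?_, ?_, ?_, ?_, ?_, ?_⟩ <;> linarith

lemma T123 (x0 x1 x2 x3 c : ℝ) (e : 20000 * c = x0 + x1 + x2 + x3) (h : F6 61 0 x3 x2 x0 x1) :
    F6 21 c x1 x0 (-x2 + 2 * x0 + 2 * x1 + 12 * (-x3 + 2 * x0 + 2 * x1 + 12 * x2)) (-x3 + 2 * x0 + 2 * x1 + 12 * x2) ∧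
    F6 21 (-(20000 * (x0 + x1 + x2 + x3))) (-x1) (-x0) (-(-x2 + 2 * x0 + 2 * x1 + 12 * (-x3 + 2 * x0 + 2 * x1 + 12 * x2))) (-(-x3 + 2 * x0 + 2 * x1 + 12 * x2)) := by
  obtain ⟨_, _, _, _, _, _⟩ := h
  refine ⟨⟨?_, ?_, ?_, ?_, ?_, ?_⟩, ?_, ?_, ?_, ?_, ?_, ?_⟩ <;> linarith

lemma T130 (x0 x1 x2 x3 c : ℝ) (e : 20000 * c = x0 + x1 + x2 + x3) (h : F6 21 0 x0 x1 x2 x3) :
    F6 21 c x1 (-x0 + 4 * x1 + 2 * x2 + 2 * x3) x2 (-x3 + 2 * (-x0 + 4 * x1 + 2 * x2 + 2 * x3) + 2 * x1 + 12 * x2) ∧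
    F6 21 (-(20000 * (x0 + x1 + x2 + x3))) (-x1) (-(-x0 + 4 * x1 + 2 * x2 + 2 * x3)) (-x2) (-(-x3 + 2 * (-x0 + 4 * x1 + 2 * x2 + 2 * x3) + 2 * x1 + 12 * x2)) := by
  obtain ⟨_, _, _, _, _, _⟩ := h
  refine ⟨⟨?_, ?_, ?_, ?_, ?_, ?_⟩, ?_, ?_, ?_, ?_, ?_, ?_⟩ <;> linarith

lemma T132 (x0 x1 x2 x3 c : ℝ) (e : 20000 * c = x0 + x1 + x2 + x3) (h : F6 61 0 x2 x3 x0 x1) :
    F6 21 c x1 x0 (-x2 + 2 * x0 + 2 * x1 + 12 * x3) (-x3 + 2 * x0 + 2 * x1 + 12 * (-x2 + 2 * x0 + 2 * x1 + 12 * x3)) ∧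
    F6 21 (-(20000 * (x0 + x1 + x2 + x3))) (-x1) (-x0) (-(-x2 + 2 * x0 + 2 * x1 + 12 * x3)) (-(-x3 + 2 * x0 + 2 * x1 + 12 * (-x2 + 2 * x0 + 2 * x1 + 12 * x3))) := by
  obtain ⟨_, _, _, _, _, _⟩ := h
  refine ⟨⟨?_, ?_, ?_, ?_, ?_, ?_⟩, ?_, ?_, ?_, ?_, ?_, ?_⟩ <;> linarith

lemma T201 (x0 x1 x2 x3 c : ℝ) (e : 20000 * c = x0 + x1 + x2 + x3) (h : F6 21 0 x1 x0 x2 x3) :
    F6 61 c x2 x3 (-x0 + 4 * (-x1 + 4 * x0 + 2 * x2 + 2 * x3) + 2 * x2 + 2 * x3) (-x1 + 4 * x0 + 2 * x2 + 2 * x3) ∧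
    F6 61 (-(20000 * (x0 + x1 + x2 + x3))) (-x2) (-x3) (-(-x0 + 4 * (-x1 + 4 * x0 + 2 * x2 + 2 * x3) + 2 * x2 + 2 * x3)) (-(-x1 + 4 * x0 + 2 * x2 + 2 * x3)) := by
  obtain ⟨_, _, _, _, _, _⟩ := h
  refine ⟨⟨?_, ?_, ?_, ?_, ?_, ?_⟩, ?_, ?_, ?_, ?_, ?_, ?_⟩ <;> linarith

lemma T203 (x0 x1 x2 x3 c : ℝ) (e : 20000 * c = x0 + x1 + x2 + x3) (h : F6 61 0 x3 x2 x0 x1) :
    F6 61 c x2 (-x3 + 2 * x0 + 2 * x1 + 12 * x2) (-x0 + 4 * x1 + 2 * x2 + 2 * (-x3 + 2 * x0 + 2 * x1 + 12 * x2)) x1 ∧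
    F6 61 (-(20000 * (x0 + x1 + x2 + x3))) (-x2) (-(-x3 + 2 * x0 + 2 * x1 + 12 * x2)) (-(-x0 + 4 * x1 + 2 * x2 + 2 * (-x3 + 2 * x0 + 2 * x1 + 12 * x2))) (-x1) := by
  obtain ⟨_, _, _, _, _, _⟩ := h
  refine ⟨⟨?_, ?_, ?_, ?_, ?_, ?_⟩, ?_, ?_, ?_, ?_, ?_, ?_⟩ <;> linarith

lemma T210 (x0 x1 x2 x3 c : ℝ) (e : 20000 * c = x0 + x1 + x2 + x3) (h : F6 21 0 x0 x1 x2 x3) :
    F6 61 c x2 x3 (-x0 + 4 * x1 + 2 * x2 + 2 * x3) (-x1 + 4 * (-x0 + 4 * x1 + 2 * x2 + 2 * x3) + 2 * x2 + 2 * x3) ∧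
    F6 61 (-(20000 * (x0 + x1 + x2 + x3))) (-x2) (-x3) (-(-x0 + 4 * x1 + 2 * x2 + 2 * x3)) (-(-x1 + 4 * (-x0 + 4 * x1 + 2 * x2 + 2 * x3) + 2 * x2 + 2 * x3)) := by
  obtain ⟨_, _, _, _, _, _⟩ := h
  refine ⟨⟨?_, ?_, ?_, ?_, ?_, ?_⟩, ?_, ?_, ?_, ?_, ?_, ?_⟩ <;> linarith

lemma T213 (x0 x1 x2 x3 c : ℝ) (e : 20000 * c = x0 + x1 + x2 + x3) (h : F6 61 0 x3 x2 x0 x1) :
    F6 61 c x2 (-x3 + 2 * x0 + 2 * x1 + 12 * x2) x0 (-x1 + 4 * x0 + 2 * x2 + 2 * (-x3 + 2 * x0 + 2 * x1 + 12 * x2)) ∧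
    F6 61 (-(20000 * (x0 + x1 + x2 + x3))) (-x2) (-(-x3 + 2 * x0 + 2 * x1 + 12 * x2)) (-x0) (-(-x1 + 4 * x0 + 2 * x2 + 2 * (-x3 + 2 * x0 + 2 * x1 + 12 * x2))) := by
  obtain ⟨_, _, _, _, _, _⟩ := h
  refine ⟨⟨?_, ?_, ?_, ?_, ?_, ?_⟩, ?_, ?_, ?_, ?_, ?_, ?_⟩ <;> linarith

lemma T230 (x0 x1 x2 x3 c : ℝ) (e : 20000 * c = x0 + x1 + x2 + x3) (h : F6 21 0 x0 x1 x2 x3) :
    F6 61 c x2 (-x3 + 2 * (-x0 + 4 * x1 + 2 * x2 + 2 * x3) + 2 * x1 + 12 * x2) (-x0 + 4 * x1 + 2 * x2 + 2 * x3) x1 ∧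
    F6 61 (-(20000 * (x0 + x1 + x2 + x3))) (-x2) (-(-x3 + 2 * (-x0 + 4 * x1 + 2 * x2 + 2 * x3) + 2 * x1 + 12 * x2)) (-(-x0 + 4 * x1 + 2 * x2 + 2 * x3)) (-x1) := by
  obtain ⟨_, _, _, _, _, _⟩ := h
  refine ⟨⟨?_, ?_, ?_, ?_, ?_, ?_⟩, ?_, ?_, ?_, ?_, ?_, ?_⟩ <;> linarith

lemma T231 (x0 x1 x2 x3 c : ℝ) (e : 20000 * c = x0 + x1 + x2 + x3) (h : F6 21 0 x1 x0 x2 x3) :
    F6 61 c x2 (-x3 + 2 * x0 + 2 * (-x1 + 4 * x0 + 2 * x2 + 2 * x3) + 12 * x2) x0 (-x1 + 4 * x0 + 2 * x2 + 2 * x3) ∧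
    F6 61 (-(20000 * (x0 + x1 + x2 + x3))) (-x2) (-(-x3 + 2 * x0 + 2 * (-x1 + 4 * x0 + 2 * x2 + 2 * x3) + 12 * x2)) (-x0) (-(-x1 + 4 * x0 + 2 * x2 + 2 * x3)) := by
  obtain ⟨_, _, _, _, _, _⟩ := h
  refine ⟨⟨?_, ?_, ?_, ?_, ?_, ?_⟩, ?_, ?_, ?_, ?_, ?_, ?_⟩ <;> linarith

lemma T232 (x0 x1 x2 x3 c : ℝ) (e : 20000 * c = x0 + x1 + x2 + x3) (h : F6 61 0 x2 x3 x0 x1) :
    F6 61 c (-x2 + 2 * x0 + 2 * x1 + 12 * x3) (-x3 + 2 * x0 + 2 * x1 + 12 * (-x2 + 2 * x0 + 2 * x1 + 12 * x3)) x0 x1 ∧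
    F6 61 (-(20000 * (x0 + x1 + x2 + x3))) (-(-x2 + 2 * x0 + 2 * x1 + 12 * x3)) (-(-x3 + 2 * x0 + 2 * x1 + 12 * (-x2 + 2 * x0 + 2 * x1 + 12 * x3))) (-x0) (-x1) := by
  obtain ⟨_, _, _, _, _, _⟩ := h
  refine ⟨⟨?_, ?_, ?_, ?_, ?_, ?_⟩, ?_, ?_, ?_, ?_, ?_, ?_⟩ <;> linarith

lemma T301 (x0 x1 x2 x3 c : ℝ) (e : 20000 * c = x0 + x1 + x2 + x3) (h : F6 21 0 x1 x0 x2 x3) :
    F6 61 c x3 x2 (-x0 + 4 * (-x1 + 4 * x0 + 2 * x2 + 2 * x3) + 2 * x2 + 2 * x3) (-x1 + 4 * x0 + 2 * x2 + 2 * x3) ∧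
    F6 61 (-(20000 * (x0 + x1 + x2 + x3))) (-x3) (-x2) (-(-x0 + 4 * (-x1 + 4 * x0 + 2 * x2 + 2 * x3) + 2 * x2 + 2 * x3)) (-(-x1 + 4 * x0 + 2 * x2 + 2 * x3)) := by
  obtain ⟨_, _, _, _, _, _⟩ := h
  refine ⟨⟨?_, ?_, ?_, ?_, ?_, ?_⟩, ?_, ?_, ?_, ?_, ?_, ?_⟩ <;> linarith

lemma T302 (x0 x1 x2 x3 c : ℝ) (e : 20000 * c = x0 + x1 + x2 + x3) (h : F6 61 0 x2 x3 x0 x1) :
    F6 61 c x3 (-x2 + 2 * x0 + 2 * x1 + 12 * x3) (-x0 + 4 * x1 + 2 * (-x2 + 2 * x0 + 2 * x1 + 12 * x3) + 2 * x3) x1 ∧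
    F6 61 (-(20000 * (x0 + x1 + x2 + x3))) (-x3) (-(-x2 + 2 * x0 + 2 * x1 + 12 * x3)) (-(-x0 + 4 * x1 + 2 * (-x2 + 2 * x0 + 2 * x1 + 12 * x3) + 2 * x3)) (-x1) := by
  obtain ⟨_, _, _, _, _, _⟩ := h
  refine ⟨⟨?_, ?_, ?_, ?_, ?_, ?_⟩, ?_, ?_, ?_, ?_, ?_, ?_⟩ <;> linarith

lemma T310 (x0 x1 x2 x3 c : ℝ) (e : 20000 * c = x0 + x1 + x2 + x3) (h : F6 21 0 x0 x1 x2 x3) :
    F6 61 c x3 x2 (-x0 + 4 * x1 + 2 * x2 + 2 * x3) (-x1 + 4 * (-x0 + 4 * x1 + 2 * x2 + 2 * x3) + 2 * x2 + 2 * x3) ∧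
    F6 61 (-(20000 * (x0 + x1 + x2 + x3))) (-x3) (-x2) (-(-x0 + 4 * x1 + 2 * x2 + 2 * x3)) (-(-x1 + 4 * (-x0 + 4 * x1 + 2 * x2 + 2 * x3) + 2 * x2 + 2 * x3)) := by
  obtain ⟨_, _, _, _, _, _⟩ := h
  refine ⟨⟨?_, ?_, ?_, ?_, ?_, ?_⟩, ?_, ?_, ?_, ?_, ?_, ?_⟩ <;> linarith

lemma T312 (x0 x1 x2 x3 c : ℝ) (e : 20000 * c = x0 + x1 + x2 + x3) (h : F6 61 0 x2 x3 x0 x1) :
    F6 61 c x3 (-x2 + 2 * x0 + 2 * x1 + 12 * x3) x0 (-x1 + 4 * x0 + 2 * (-x2 + 2 * x0 + 2 * x1 + 12 * x3) + 2 * x3) ∧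
    F6 61 (-(20000 * (x0 + x1 + x2 + x3))) (-x3) (-(-x2 + 2 * x0 + 2 * x1 + 12 * x3)) (-x0) (-(-x1 + 4 * x0 + 2 * (-x2 + 2 * x0 + 2 * x1 + 12 * x3) + 2 * x3)) := by
  obtain ⟨_, _, _, _, _, _⟩ := h
  refine ⟨⟨?_, ?_, ?_, ?_, ?_, ?_⟩, ?_, ?_, ?_, ?_, ?_, ?_⟩ <;> linarith

lemma T320 (x0 x1 x2 x3 c : ℝ) (e : 20000 * c = x0 + x1 + x2 + x3) (h : F6 21 0 x0 x1 x2 x3) :
    F6 61 c x3 (-x2 + 2 * (-x0 + 4 * x1 + 2 * x2 + 2 * x3) + 2 * x1 + 12 * x3) (-x0 + 4 * x1 + 2 * x2 + 2 * x3) x1 ∧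
    F6 61 (-(20000 * (x0 + x1 + x2 + x3))) (-x3) (-(-x2 + 2 * (-x0 + 4 * x1 + 2 * x2 + 2 * x3) + 2 * x1 + 12 * x3)) (-(-x0 + 4 * x1 + 2 * x2 + 2 * x3)) (-x1) := by
  obtain ⟨_, _, _, _, _, _⟩ := h
  refine ⟨⟨?_, ?_, ?_, ?_, ?_, ?_⟩, ?_, ?_, ?_, ?_, ?_, ?_⟩ <;> linarith

lemma T321 (x0 x1 x2 x3 c : ℝ) (e : 20000 * c = x0 + x1 + x2 + x3) (h : F6 21 0 x1 x0 x2 x3) :
    F6 61 c x3 (-x2 + 2 * x0 + 2 * (-x1 + 4 * x0 + 2 * x2 + 2 * x3) + 12 * x3) x0 (-x1 + 4 * x0 + 2 * x2 + 2 * x3) ∧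
    F6 61 (-(20000 * (x0 + x1 + x2 + x3))) (-x3) (-(-x2 + 2 * x0 + 2 * (-x1 + 4 * x0 + 2 * x2 + 2 * x3) + 12 * x3)) (-x0) (-(-x1 + 4 * x0 + 2 * x2 + 2 * x3)) := by
  obtain ⟨_, _, _, _, _, _⟩ := h
  refine ⟨⟨?_, ?_, ?_, ?_, ?_, ?_⟩, ?_, ?_, ?_, ?_, ?_, ?_⟩ <;> linarith

lemma T323 (x0 x1 x2 x3 c : ℝ) (e : 20000 * c = x0 + x1 + x2 + x3) (h : F6 61 0 x3 x2 x0 x1) :
    F6 61 c (-x3 + 2 * x0 + 2 * x1 + 12 * x2) (-x2 + 2 * x0 + 2 * x1 + 12 * (-x3 + 2 * x0 + 2 * x1 + 12 * x2)) x0 x1 ∧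
    F6 61 (-(20000 * (x0 + x1 + x2 + x3))) (-(-x3 + 2 * x0 + 2 * x1 + 12 * x2)) (-(-x2 + 2 * x0 + 2 * x1 + 12 * (-x3 + 2 * x0 + 2 * x1 + 12 * x2))) (-x0) (-x1) := by
  obtain ⟨_, _, _, _, _, _⟩ := h
  refine ⟨⟨?_, ?_, ?_, ?_, ?_, ?_⟩, ?_, ?_, ?_, ?_, ?_, ?_⟩ <;> linarith

lemma KA_str (t u r : Fin 4) (htu : t ≠ u) (hur : u ≠ r) (hp : ¬ (r = t ∧ par t u))
    (v : Fin 4 → ℝ) (h : KA r 0 v) :
    KA t ((∑ i, v i) / 20000) (sA u (sA r v)) ∧ KA t (-(20000 * ∑ i, v i)) (-(sA u (sA r v))) := by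
  rw [Fin.sum_univ_four]
  fin_cases t <;> fin_cases u <;> fin_cases r
  · exact absurd rfl htu
  · exact absurd rfl htu
  · exact absurd rfl htu
  · exact absurd rfl htu
  · exact T010 (v 0) (v 1) (v 2) (v 3) _ (by ring) h
  · exact absurd rfl hur
  · exact T012 (v 0) (v 1) (v 2) (v 3) _ (by ring) h
  · exact T013 (v 0) (v 1) (v 2) (v 3) _ (by ring) h
  · exact absurd ⟨rfl, by decide⟩ hp
  · exact T021 (v 0) (v 1) (v 2) (v 3) _ (by ring) h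
  · exact absurd rfl hur
  · exact T023 (v 0) (v 1) (v 2) (v 3) _ (by ring) h
  · exact absurd ⟨rfl, by decide⟩ hp
  · exact T031 (v 0) (v 1) (v 2) (v 3) _ (by ring) h
  · exact T032 (v 0) (v 1) (v 2) (v 3) _ (by ring) h
  · exact absurd rfl hur
  · exact absurd rfl hur
  · exact T101 (v 0) (v 1) (v 2) (v 3) _ (by ring) h
  · exact T102 (v 0) (v 1) (v 2) (v 3) _ (by ring) h
  · exact T103 (v 0) (v 1) (v 2) (v 3) _ (by ring) h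
  · exact absurd rfl htu
  · exact absurd rfl htu
  · exact absurd rfl htu
  · exact absurd rfl htu
  · exact T120 (v 0) (v 1) (v 2) (v 3) _ (by ring) h
  · exact absurd ⟨rfl, by decide⟩ hp
  · exact absurd rfl hur
  · exact T123 (v 0) (v 1) (v 2) (v 3) _ (by ring) h
  · exact T130 (v 0) (v 1) (v 2) (v 3) _ (by ring) h
  · exact absurd ⟨rfl, by decide⟩ hp
  · exact T132 (v 0) (v 1) (v 2) (v 3) _ (by ring) h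
  · exact absurd rfl hur
  · exact absurd rfl hur
  · exact T201 (v 0) (v 1) (v 2) (v 3) _ (by ring) h
  · exact absurd ⟨rfl, by decide⟩ hp
  · exact T203 (v 0) (v 1) (v 2) (v 3) _ (by ring) h
  · exact T210 (v 0) (v 1) (v 2) (v 3) _ (by ring) h
  · exact absurd rfl hur
  · exact absurd ⟨rfl, by decide⟩ hp
  · exact T213 (v 0) (v 1) (v 2) (v 3) _ (by ring) h
  · exact absurd rfl htu
  · exact absurd rfl htu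
  · exact absurd rfl htu
  · exact absurd rfl htu
  · exact T230 (v 0) (v 1) (v 2) (v 3) _ (by ring) h
  · exact T231 (v 0) (v 1) (v 2) (v 3) _ (by ring) h
  · exact T232 (v 0) (v 1) (v 2) (v 3) _ (by ring) h
  · exact absurd rfl hur
  · exact absurd rfl hur
  · exact T301 (v 0) (v 1) (v 2) (v 3) _ (by ring) h
  · exact T302 (v 0) (v 1) (v 2) (v 3) _ (by ring) h
  · exact absurd ⟨rfl, by decide⟩ hp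
  · exact T310 (v 0) (v 1) (v 2) (v 3) _ (by ring) h
  · exact absurd rfl hur
  · exact T312 (v 0) (v 1) (v 2) (v 3) _ (by ring) h
  · exact absurd ⟨rfl, by decide⟩ hp
  · exact T320 (v 0) (v 1) (v 2) (v 3) _ (by ring) h
  · exact T321 (v 0) (v 1) (v 2) (v 3) _ (by ring) h
  · exact absurd rfl hur
  · exact T323 (v 0) (v 1) (v 2) (v 3) _ (by ring) h
  · exact absurd rfl htu
  · exact absurd rfl htu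
  · exact absurd rfl htu
  · exact absurd rfl htu

lemma KA_e (t u : Fin 4) (htu : t ≠ u) : KA t 0 (Pi.single u 1) := by
  fin_cases t <;> fin_cases u <;> simp [KA, F6] at htu ⊢ <;> norm_num

lemma KA_d (t a b : Fin 4) (h : par a b) : KA t 0 (Pi.single a 1 + Pi.single b 1) := by
  fin_cases t <;> fin_cases a <;> fin_cases b <;>
    first
    | exact absurd h (by decide)
    | (simp [KA, F6]; try norm_num)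

lemma sA_1 (a b : Fin 4) (h : par a b) :
    sA a (Pi.single b 1) = Pi.single a 1 + (Pi.single a 1 + Pi.single b 1) := by
  fin_cases a <;> fin_cases b <;>
    first
    | exact absurd h (by decide)
    | (ext i; fin_cases i <;> simp [sA] <;> norm_num)

lemma sA_2 (a b : Fin 4) (h : par a b) :
    sA a (sA b (Pi.single a 1)) = (2 : ℝ) • sA a (Pi.single b 1) - Pi.single a 1 := by
  fin_cases a <;> fin_cases b <;>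
    first
    | exact absurd h (by decide)
    | (ext i; fin_cases i <;> simp [sA] <;> norm_num)

lemma lim_lin {n : ℕ} (β : ℕ → Fin n → ℝ) (J : ℕ) (δ : Fin n → ℝ) (hδ : 0 < ∑ i, δ i)
    (h : ∀ m : ℕ, β (m + J) = β J + (m : ℝ) • δ) :
    ∃ x, Tendsto (fun k => (∑ i, β k i)⁻¹ • β k) atTop (𝓝 x) := by
  refine ⟨(∑ i, δ i)⁻¹ • δ, ?_⟩
  rw [← tendsto_add_atTop_iff_nat J]
  have h0 : Tendsto (fun m : ℕ => ((m : ℝ))⁻¹) atTop (𝓝 0) := tendsto_inv_atTop_nhds_zero_nat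
  have h1 := (((h0.mul_const (∑ i, β J i)).add_const (∑ i, δ i)).inv₀ (by simpa using hδ.ne')).smul
    ((h0.smul_const (β J)).add_const δ)
  simp only [zero_mul, zero_add, zero_smul] at h1
  refine h1.congr' ?_
  filter_upwards [eventually_gt_atTop 0] with m hm
  have hm' : (m : ℝ) ≠ 0 := by exact_mod_cast hm.ne'
  rw [h m]
  simp only [Pi.add_apply, Pi.smul_apply, smul_eq_mul, Finset.sum_add_distrib, ← Finset.mul_sum]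
  have e1 : (m : ℝ)⁻¹ * ∑ i, β J i + ∑ i, δ i = (m : ℝ)⁻¹ * (∑ i, β J i + m * ∑ i, δ i) := by
    field_simp
  have e2 : (m : ℝ)⁻¹ • β J + δ = (m : ℝ)⁻¹ • (β J + (m : ℝ) • δ) := by
    rw [smul_add, smul_smul, inv_mul_cancel₀ hm', one_smul]
  rw [e1, e2, smul_smul, mul_inv, inv_inv]
  congr 1
  field_simp

theorem sysA (σ : Fin 4 → Matrix (Fin 4) (Fin 4) ℝ) (hσ : ∀ i v, σ i *ᵥ v = sA i v)
    (s : ℕ → Fin 4) (hs : ∀ k, s k ≠ s (k + 1)) :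
    ∃! y, AccPt y (𝓟 (Set.range fun k => (∑ i, (W σ s k *ᵥ Pi.single (s k) (1 : ℝ)) i)⁻¹ •
      (W σ s k *ᵥ Pi.single (s k) (1 : ℝ)))) := by
  let t : ℕ → Fin 4 := fun j => Nat.casesOn j (s 0 + 1) s
  have ht : ∀ j, t j ≠ s j := by
    intro j
    cases j with
    | zero => simp [t]
    | succ j => exact hs j
  have hc : Cones σ s (fun j => KA (t j)) 2 :=
    { hσ := fun i => by
        ext a b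
        have := congrFun (hσ i (σ i *ᵥ Pi.single b 1)) a
        rw [mulVec_mulVec, mulVec_single_one, hσ] at this
        rw [show (σ i * σ i) a b = (σ i * σ i).col b a from rfl, this]
        fin_cases i <;> fin_cases a <;> fin_cases b <;> simp [sA]
      hD := by norm_num
      add := fun j => KA_add _
      sm := fun j => KA_sm _
      mono := fun j => KA_mono _
      nrm := fun j => KA_nrm _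
      inv := fun j v h => by rw [hσ]; exact KA_inv _ _ (ht j) v h }
  have e0 : ∀ a : Fin 4, (Pi.single a 1 : Fin 4 → ℝ) ≠ 0 := fun a => by simp
  refine hc.fin ?_ hs (Eventually.of_forall fun k => ⟨k, _, KA_e _ _ (ht k), e0 _, rfl⟩) ?_
  · intro i j hij
    have := congrFun (hσ i (Pi.single j 1)) j
    rw [mulVec_single_one] at this
    rw [show σ i j j = (σ i).col j j from rfl, this]
    fin_cases i <;> fin_cases j <;> simp [sA] at hij ⊢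
  by_cases hcase : ∀ j, ∃ j1, j ≤ j1 ∧ ¬ (s (j1 + 2) = s j1 ∧ par (s j1) (s (j1 + 1)))
  · refine hc.conv 20000 (by norm_num) (fun j => ?_) _ fun J => ?_
    · obtain ⟨j1, h1, h2⟩ := hcase j
      refine ⟨j1 + 1, j1 + 3, by omega, by omega, σ (s (j1 + 1)) * σ (s (j1 + 2)), ?_, fun v hv => ?_⟩
      · rw [W_succ, W_succ, mul_assoc]
      · rw [← mulVec_mulVec, hσ, hσ]
        exact KA_str _ _ _ (hs j1) (hs (j1 + 1)) h2 v hv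
    · filter_upwards [eventually_ge_atTop J] with k hk
      exact ⟨k, hk, _, KA_e _ _ (ht k), e0 _, rfl⟩
  · push Not at hcase
    obtain ⟨J, hJ⟩ := hcase
    refine lim_lin _ J (W σ s J *ᵥ (Pi.single (s J) 1 + Pi.single (s (J + 1)) 1))
      (hc.Lpos J _ (KA_d _ _ _ (hJ J le_rfl).2) fun e => ?_) ?_
    · have := congrFun e (s J)
      simp [hs J] at this
    · intro m
      induction m using Nat.twoStepInduction with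
      | zero => simp
      | one =>
        rw [add_comm 1 J, W_succ, ← mulVec_mulVec, hσ, sA_1 _ _ (hJ J le_rfl).2, mulVec_add]
        simp
      | more m ih1 ih2 =>
        obtain ⟨e1, e2⟩ := hJ (m + J) (by omega)
        have e3 : W σ s (m + J + 2) *ᵥ Pi.single (s (m + J + 2)) (1 : ℝ) =
            (2 : ℝ) • (W σ s (m + J + 1) *ᵥ Pi.single (s (m + J + 1)) (1 : ℝ)) -
              W σ s (m + J) *ᵥ Pi.single (s (m + J)) (1 : ℝ) := by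
          rw [e1, W_succ, W_succ, ← mulVec_mulVec, ← mulVec_mulVec, ← mulVec_mulVec, hσ, hσ, hσ,
            sA_2 _ _ e2, mulVec_sub, mulVec_smul]
        rw [show m + 1 + J = m + J + 1 by ring] at ih2
        rw [show m + 2 + J = m + J + 2 by ring, e3, ih1, ih2]
        push_cast
        module

end Pool.Agent.H.MP_e21d7a_al
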