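import Pool.Agent.H.MP_e21d7a_al.A

set_option autoImplicit false
set_option linter.unnecessarySeqFocus false

namespace Pool.Agent.H.MP_e21d7a_al

open Filter Topology Matrix

def F8 (H c x0 x1 x2 x3 x4 : ℝ) : Prop :=
  c ≤ 500 * x0 + 10 * H ∧ c ≤ 500 * x1 + 10 * H ∧ c ≤ 500 * x2 + 10 * H ∧ c ≤ 500 * x3 + 10 * H ∧
    c ≤ 500 * x4 + 10 * H ∧ c ≤ 500 * (2 * x1 + 2 * x4 - x0) + H ∧
    c ≤ 500 * (4 * x1 + 4 * x3 - x2) + 10 * H ∧ c ≤ 500 * (4 * x2 + 4 * x4 - x3) + 10 * H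

def FA (c x0 x1 x2 x3 x4 : ℝ) : Prop := F8 (3 * x1 + x2 + x3 + 3 * x4) c x0 x1 x2 x3 x4

def FB (c x0 x1 x2 x3 x4 : ℝ) : Prop := F8 (3 * x1 + 2 * x3 + 2 * x4) c x0 x1 x2 x3 x4 ∧
  c ≤ 500 * (2 * x1 + 2 * x3 - x2) + (3 * x1 + 2 * x3 + 2 * x4)

def KB (t o : Fin 5) (c : ℝ) (v : Fin 5 → ℝ) : Prop :=
  if o = t then FA c (v t) (v (t + 1)) (v (t + 2)) (v (t + 3)) (v (t + 4))
  else if o = t + 2 then FB c (v t) (v (t + 1)) (v (t + 2)) (v (t + 3)) (v (t + 4))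
  else FB c (v t) (v (t + 4)) (v (t + 3)) (v (t + 2)) (v (t + 1))

def sB (u : Fin 5) (v : Fin 5 → ℝ) : Fin 5 → ℝ :=
  fun a => if a = u then 4 * (v (u + 1) + v (u + 4)) - v u else v a

def cm (a b : Fin 5) : Prop := b = a + 2 ∨ b = a + 3

instance (a b : Fin 5) : Decidable (cm a b) := inferInstanceAs (Decidable (_ ∨ _))

def nx (t o u : Fin 5) : Fin 5 := if cm t u then t else if cm o u then o else u

lemma FA_lin (c x0 x1 x2 x3 x4 c' y0 y1 y2 y3 y4 r : ℝ) (hr : 0 ≤ r) (h : FA c x0 x1 x2 x3 x4)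
    (h' : FA c' y0 y1 y2 y3 y4) : FA (r * c + c') (r * x0 + y0) (r * x1 + y1) (r * x2 + y2)
      (r * x3 + y3) (r * x4 + y4) := by
  obtain ⟨a1, a2, a3, a4, a5, a6, a7, a8⟩ := h
  obtain ⟨b1, b2, b3, b4, b5, b6, b7, b8⟩ := h'
  refine ⟨?_, ?_, ?_, ?_, ?_, ?_, ?_, ?_⟩
  · linarith only [mul_le_mul_of_nonneg_left a1 hr, b1]
  · linarith only [mul_le_mul_of_nonneg_left a2 hr, b2]
  · linarith only [mul_le_mul_of_nonneg_left a3 hr, b3]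
  · linarith only [mul_le_mul_of_nonneg_left a4 hr, b4]
  · linarith only [mul_le_mul_of_nonneg_left a5 hr, b5]
  · linarith only [mul_le_mul_of_nonneg_left a6 hr, b6]
  · linarith only [mul_le_mul_of_nonneg_left a7 hr, b7]
  · linarith only [mul_le_mul_of_nonneg_left a8 hr, b8]

lemma FB_lin (c x0 x1 x2 x3 x4 c' y0 y1 y2 y3 y4 r : ℝ) (hr : 0 ≤ r) (h : FB c x0 x1 x2 x3 x4)
    (h' : FB c' y0 y1 y2 y3 y4) : FB (r * c + c') (r * x0 + y0) (r * x1 + y1) (r * x2 + y2)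
      (r * x3 + y3) (r * x4 + y4) := by
  obtain ⟨⟨a1, a2, a3, a4, a5, a6, a7, a8⟩, a9⟩ := h
  obtain ⟨⟨b1, b2, b3, b4, b5, b6, b7, b8⟩, b9⟩ := h'
  refine ⟨⟨?_, ?_, ?_, ?_, ?_, ?_, ?_, ?_⟩, ?_⟩
  · linarith only [mul_le_mul_of_nonneg_left a1 hr, b1]
  · linarith only [mul_le_mul_of_nonneg_left a2 hr, b2]
  · linarith only [mul_le_mul_of_nonneg_left a3 hr, b3]
  · linarith only [mul_le_mul_of_nonneg_left a4 hr, b4]
  · linarith only [mul_le_mul_of_nonneg_left a5 hr, b5]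
  · linarith only [mul_le_mul_of_nonneg_left a6 hr, b6]
  · linarith only [mul_le_mul_of_nonneg_left a7 hr, b7]
  · linarith only [mul_le_mul_of_nonneg_left a8 hr, b8]
  · linarith only [mul_le_mul_of_nonneg_left a9 hr, b9]

lemma KB_lin (t o : Fin 5) (c c' r : ℝ) (v v' : Fin 5 → ℝ) (hr : 0 ≤ r) (h : KB t o c v)
    (h' : KB t o c' v') : KB t o (r * c + c') (r • v + v') := by
  unfold KB at *
  split_ifs at *
  · exact FA_lin _ _ _ _ _ _ _ _ _ _ _ _ _ hr h h'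
  · exact FB_lin _ _ _ _ _ _ _ _ _ _ _ _ _ hr h h'
  · exact FB_lin _ _ _ _ _ _ _ _ _ _ _ _ _ hr h h'

lemma KB_zero (t o : Fin 5) (c : ℝ) (hc : c ≤ 0) : KB t o c 0 := by
  unfold KB
  split_ifs <;> simp [FA, FB, F8, hc]

lemma FA_nrm (x0 x1 x2 x3 x4 S : ℝ) (e : S = x0 + x1 + x2 + x3 + x4) (h : FA 0 x0 x1 x2 x3 x4) :
    0 ≤ S ∧ |x0| ≤ 2 * S ∧ |x1| ≤ 2 * S ∧ |x2| ≤ 2 * S ∧ |x3| ≤ 2 * S ∧ |x4| ≤ 2 * S := by
  obtain ⟨_, _, _, _, _, _, _, _⟩ := h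
  simp only [abs_le]
  refine ⟨?_, ⟨?_, ?_⟩, ⟨?_, ?_⟩, ⟨?_, ?_⟩, ⟨?_, ?_⟩, ?_, ?_⟩ <;> linarith

lemma FB_nrm (x0 x1 x2 x3 x4 S : ℝ) (e : S = x0 + x1 + x2 + x3 + x4) (h : FB 0 x0 x1 x2 x3 x4) :
    0 ≤ S ∧ |x0| ≤ 2 * S ∧ |x1| ≤ 2 * S ∧ |x2| ≤ 2 * S ∧ |x3| ≤ 2 * S ∧ |x4| ≤ 2 * S := by
  obtain ⟨⟨_, _, _, _, _, _, _, _⟩, _⟩ := h
  simp only [abs_le]
  refine ⟨?_, ⟨?_, ?_⟩, ⟨?_, ?_⟩, ⟨?_, ?_⟩, ⟨?_, ?_⟩, ?_, ?_⟩ <;> linarith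

lemma sum_rot (t : Fin 5) (v : Fin 5 → ℝ) :
    ∑ i, v i = v t + v (t + 1) + v (t + 2) + v (t + 3) + v (t + 4) := by
  fin_cases t <;> simp [Fin.sum_univ_five] <;> ring

lemma KB_nrm (t o : Fin 5) (v : Fin 5 → ℝ) (h : KB t o 0 v) : ‖v‖ ≤ 2 * ∑ i, v i := by
  have hs := sum_rot t v
  have key0 : ∀ t a : Fin 5, a = t ∨ a = t + 1 ∨ a = t + 2 ∨ a = t + 3 ∨ a = t + 4 := by decide
  have key := key0 t
  have : 0 ≤ ∑ i, v i ∧ ∀ a, |v a| ≤ 2 * ∑ i, v i := by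
    unfold KB at h
    split_ifs at h
    · obtain ⟨h0, h1, h2, h3, h4, h5⟩ := FA_nrm _ _ _ _ _ _ hs h
      exact ⟨h0, fun a => by rcases key a with rfl | rfl | rfl | rfl | rfl <;> assumption⟩
    · obtain ⟨h0, h1, h2, h3, h4, h5⟩ := FB_nrm _ _ _ _ _ _ hs h
      exact ⟨h0, fun a => by rcases key a with rfl | rfl | rfl | rfl | rfl <;> assumption⟩
    · obtain ⟨h0, h1, h2, h3, h4, h5⟩ := FB_nrm _ _ _ _ _ (∑ i, v i) (by rw [hs]; ring) h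
      exact ⟨h0, fun a => by rcases key a with rfl | rfl | rfl | rfl | rfl <;> assumption⟩
  exact (pi_norm_le_iff_of_nonneg (by linarith [this.1])).2 this.2

lemma U01 (x0 x1 x2 x3 x4 c S : ℝ) (e : S = x0 + x1 + x2 + x3 + x4) (e' : 100000 * c = S)
    (h : FA 0 x1 x2 x3 x4 x0) :
    FA c x0 (4 * (x2 + x0) - x1) x2 x3 x4 ∧
    FA (-(100000 * S)) (-x0) (-(4 * (x2 + x0) - x1)) (-x2) (-x3) (-x4) := by
  obtain ⟨_, _, _, _, _, _, _, _⟩ := h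
  refine ⟨⟨?_, ?_, ?_, ?_, ?_, ?_, ?_, ?_⟩, ⟨?_, ?_, ?_, ?_, ?_, ?_, ?_, ?_⟩⟩ <;> linarith

lemma U02 (x0 x1 x2 x3 x4 c S : ℝ) (e : S = x0 + x1 + x2 + x3 + x4) (e' : 100000 * c = S)
    (h : FB 0 x2 x1 x0 x4 x3) :
    FA c x0 x1 (4 * (x3 + x1) - x2) x3 x4 ∧
    FA (-(100000 * S)) (-x0) (-x1) (-(4 * (x3 + x1) - x2)) (-x3) (-x4) := by
  obtain ⟨⟨_, _, _, _, _, _, _, _⟩, _⟩ := h
  refine ⟨⟨?_, ?_, ?_, ?_, ?_, ?_, ?_, ?_⟩, ⟨?_, ?_, ?_, ?_, ?_, ?_, ?_, ?_⟩⟩ <;> linarith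

lemma U03 (x0 x1 x2 x3 x4 c S : ℝ) (e : S = x0 + x1 + x2 + x3 + x4) (e' : 100000 * c = S)
    (h : FB 0 x3 x4 x0 x1 x2) :
    FA c x0 x1 x2 (4 * (x4 + x2) - x3) x4 ∧
    FA (-(100000 * S)) (-x0) (-x1) (-x2) (-(4 * (x4 + x2) - x3)) (-x4) := by
  obtain ⟨⟨_, _, _, _, _, _, _, _⟩, _⟩ := h
  refine ⟨⟨?_, ?_, ?_, ?_, ?_, ?_, ?_, ?_⟩, ⟨?_, ?_, ?_, ?_, ?_, ?_, ?_, ?_⟩⟩ <;> linarith

lemma U04 (x0 x1 x2 x3 x4 c S : ℝ) (e : S = x0 + x1 + x2 + x3 + x4) (e' : 100000 * c = S)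
    (h : FA 0 x4 x0 x1 x2 x3) :
    FA c x0 x1 x2 x3 (4 * (x0 + x3) - x4) ∧
    FA (-(100000 * S)) (-x0) (-x1) (-x2) (-x3) (-(4 * (x0 + x3) - x4)) := by
  obtain ⟨_, _, _, _, _, _, _, _⟩ := h
  refine ⟨⟨?_, ?_, ?_, ?_, ?_, ?_, ?_, ?_⟩, ⟨?_, ?_, ?_, ?_, ?_, ?_, ?_, ?_⟩⟩ <;> linarith

lemma U21 (x0 x1 x2 x3 x4 c S : ℝ) (e : S = x0 + x1 + x2 + x3 + x4) (e' : 100000 * c = S)
    (h : FA 0 x1 x2 x3 x4 x0) :
    FB c x0 (4 * (x2 + x0) - x1) x2 x3 x4 ∧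
    FB (-(100000 * S)) (-x0) (-(4 * (x2 + x0) - x1)) (-x2) (-x3) (-x4) := by
  obtain ⟨_, _, _, _, _, _, _, _⟩ := h
  refine ⟨⟨⟨?_, ?_, ?_, ?_, ?_, ?_, ?_, ?_⟩, ?_⟩, ⟨⟨?_, ?_, ?_, ?_, ?_, ?_, ?_, ?_⟩, ?_⟩⟩ <;> linarith

lemma U23 (x0 x1 x2 x3 x4 c S : ℝ) (e : S = x0 + x1 + x2 + x3 + x4) (e' : 100000 * c = S)
    (h : FB 0 x3 x4 x0 x1 x2) :
    FB c x0 x1 x2 (4 * (x4 + x2) - x3) x4 ∧
    FB (-(100000 * S)) (-x0) (-x1) (-x2) (-(4 * (x4 + x2) - x3)) (-x4) := by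
  obtain ⟨⟨_, _, _, _, _, _, _, _⟩, _⟩ := h
  refine ⟨⟨⟨?_, ?_, ?_, ?_, ?_, ?_, ?_, ?_⟩, ?_⟩, ⟨⟨?_, ?_, ?_, ?_, ?_, ?_, ?_, ?_⟩, ?_⟩⟩ <;> linarith

lemma U24 (x0 x1 x2 x3 x4 c S : ℝ) (e : S = x0 + x1 + x2 + x3 + x4) (e' : 100000 * c = S)
    (h : FB 0 x4 x3 x2 x1 x0) :
    FB c x0 x1 x2 x3 (4 * (x0 + x3) - x4) ∧
    FB (-(100000 * S)) (-x0) (-x1) (-x2) (-x3) (-(4 * (x0 + x3) - x4)) := by
  obtain ⟨⟨_, _, _, _, _, _, _, _⟩, _⟩ := h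
  refine ⟨⟨⟨?_, ?_, ?_, ?_, ?_, ?_, ?_, ?_⟩, ?_⟩, ⟨⟨?_, ?_, ?_, ?_, ?_, ?_, ?_, ?_⟩, ?_⟩⟩ <;> linarith

lemma U31 (x0 x1 x2 x3 x4 c S : ℝ) (e : S = x0 + x1 + x2 + x3 + x4) (e' : 100000 * c = S)
    (h : FB 0 x1 x2 x3 x4 x0) :
    FB c x0 x4 x3 x2 (4 * (x2 + x0) - x1) ∧
    FB (-(100000 * S)) (-x0) (-x4) (-x3) (-x2) (-(4 * (x2 + x0) - x1)) := by
  obtain ⟨⟨_, _, _, _, _, _, _, _⟩, _⟩ := h
  refine ⟨⟨⟨?_, ?_, ?_, ?_, ?_, ?_, ?_, ?_⟩, ?_⟩, ⟨⟨?_, ?_, ?_, ?_, ?_, ?_, ?_, ?_⟩, ?_⟩⟩ <;> linarith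

lemma U32 (x0 x1 x2 x3 x4 c S : ℝ) (e : S = x0 + x1 + x2 + x3 + x4) (e' : 100000 * c = S)
    (h : FB 0 x2 x1 x0 x4 x3) :
    FB c x0 x4 x3 (4 * (x3 + x1) - x2) x1 ∧
    FB (-(100000 * S)) (-x0) (-x4) (-x3) (-(4 * (x3 + x1) - x2)) (-x1) := by
  obtain ⟨⟨_, _, _, _, _, _, _, _⟩, _⟩ := h
  refine ⟨⟨⟨?_, ?_, ?_, ?_, ?_, ?_, ?_, ?_⟩, ?_⟩, ⟨⟨?_, ?_, ?_, ?_, ?_, ?_, ?_, ?_⟩, ?_⟩⟩ <;> linarith

lemma U34 (x0 x1 x2 x3 x4 c S : ℝ) (e : S = x0 + x1 + x2 + x3 + x4) (e' : 100000 * c = S)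
    (h : FA 0 x4 x0 x1 x2 x3) :
    FB c x0 (4 * (x0 + x3) - x4) x3 x2 x1 ∧
    FB (-(100000 * S)) (-x0) (-(4 * (x0 + x3) - x4)) (-x3) (-x2) (-x1) := by
  obtain ⟨_, _, _, _, _, _, _, _⟩ := h
  refine ⟨⟨⟨?_, ?_, ?_, ?_, ?_, ?_, ?_, ?_⟩, ?_⟩, ⟨⟨?_, ?_, ?_, ?_, ?_, ?_, ?_, ?_⟩, ?_⟩⟩ <;> linarith

lemma KB_str (t o u : Fin 5) (ho : o = t ∨ cm t o) (h1 : u ≠ t) (h2 : u ≠ o)
    (v : Fin 5 → ℝ) (h : KB u (nx t o u) 0 v) :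
    KB t o ((∑ i, v i) / 100000) (sB u v) ∧ KB t o (-(100000 * ∑ i, v i)) (-(sB u v)) := by
  have hs := sum_rot t v
  fin_cases t <;> fin_cases o <;> fin_cases u
  · exact absurd rfl h1
  · exact U01 _ _ _ _ _ _ _ hs (by ring) h
  · exact U02 _ _ _ _ _ _ _ hs (by ring) h
  · exact U03 _ _ _ _ _ _ _ hs (by ring) h
  · exact U04 _ _ _ _ _ _ _ hs (by ring) h
  · exact absurd ho (by decide)
  · exact absurd ho (by decide)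
  · exact absurd ho (by decide)
  · exact absurd ho (by decide)
  · exact absurd ho (by decide)
  · exact absurd rfl h1
  · exact U21 _ _ _ _ _ _ _ hs (by ring) h
  · exact absurd rfl h2
  · exact U23 _ _ _ _ _ _ _ hs (by ring) h
  · exact U24 _ _ _ _ _ _ _ hs (by ring) h
  · exact absurd rfl h1
  · exact U31 _ _ _ _ _ _ _ hs (by ring) h
  · exact U32 _ _ _ _ _ _ _ hs (by ring) h
  · exact absurd rfl h2
  · exact U34 _ _ _ _ _ _ _ hs (by ring) h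
  · exact absurd ho (by decide)
  · exact absurd ho (by decide)
  · exact absurd ho (by decide)
  · exact absurd ho (by decide)
  · exact absurd ho (by decide)
  · exact absurd ho (by decide)
  · exact absurd ho (by decide)
  · exact absurd ho (by decide)
  · exact absurd ho (by decide)
  · exact absurd ho (by decide)
  · exact U04 _ _ _ _ _ _ _ hs (by ring) h
  · exact absurd rfl h1
  · exact U01 _ _ _ _ _ _ _ hs (by ring) h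
  · exact U02 _ _ _ _ _ _ _ hs (by ring) h
  · exact U03 _ _ _ _ _ _ _ hs (by ring) h
  · exact absurd ho (by decide)
  · exact absurd ho (by decide)
  · exact absurd ho (by decide)
  · exact absurd ho (by decide)
  · exact absurd ho (by decide)
  · exact U24 _ _ _ _ _ _ _ hs (by ring) h
  · exact absurd rfl h1
  · exact U21 _ _ _ _ _ _ _ hs (by ring) h
  · exact absurd rfl h2
  · exact U23 _ _ _ _ _ _ _ hs (by ring) h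
  · exact U34 _ _ _ _ _ _ _ hs (by ring) h
  · exact absurd rfl h1
  · exact U31 _ _ _ _ _ _ _ hs (by ring) h
  · exact U32 _ _ _ _ _ _ _ hs (by ring) h
  · exact absurd rfl h2
  · exact absurd rfl h2
  · exact U34 _ _ _ _ _ _ _ hs (by ring) h
  · exact absurd rfl h1
  · exact U31 _ _ _ _ _ _ _ hs (by ring) h
  · exact U32 _ _ _ _ _ _ _ hs (by ring) h
  · exact absurd ho (by decide)
  · exact absurd ho (by decide)
  · exact absurd ho (by decide)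
  · exact absurd ho (by decide)
  · exact absurd ho (by decide)
  · exact U03 _ _ _ _ _ _ _ hs (by ring) h
  · exact U04 _ _ _ _ _ _ _ hs (by ring) h
  · exact absurd rfl h1
  · exact U01 _ _ _ _ _ _ _ hs (by ring) h
  · exact U02 _ _ _ _ _ _ _ hs (by ring) h
  · exact absurd ho (by decide)
  · exact absurd ho (by decide)
  · exact absurd ho (by decide)
  · exact absurd ho (by decide)
  · exact absurd ho (by decide)
  · exact U23 _ _ _ _ _ _ _ hs (by ring) h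
  · exact U24 _ _ _ _ _ _ _ hs (by ring) h
  · exact absurd rfl h1
  · exact U21 _ _ _ _ _ _ _ hs (by ring) h
  · exact absurd rfl h2
  · exact absurd rfl h2
  · exact U23 _ _ _ _ _ _ _ hs (by ring) h
  · exact U24 _ _ _ _ _ _ _ hs (by ring) h
  · exact absurd rfl h1
  · exact U21 _ _ _ _ _ _ _ hs (by ring) h
  · exact U32 _ _ _ _ _ _ _ hs (by ring) h
  · exact absurd rfl h2
  · exact U34 _ _ _ _ _ _ _ hs (by ring) h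
  · exact absurd rfl h1
  · exact U31 _ _ _ _ _ _ _ hs (by ring) h
  · exact absurd ho (by decide)
  · exact absurd ho (by decide)
  · exact absurd ho (by decide)
  · exact absurd ho (by decide)
  · exact absurd ho (by decide)
  · exact U02 _ _ _ _ _ _ _ hs (by ring) h
  · exact U03 _ _ _ _ _ _ _ hs (by ring) h
  · exact U04 _ _ _ _ _ _ _ hs (by ring) h
  · exact absurd rfl h1
  · exact U01 _ _ _ _ _ _ _ hs (by ring) h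
  · exact absurd ho (by decide)
  · exact absurd ho (by decide)
  · exact absurd ho (by decide)
  · exact absurd ho (by decide)
  · exact absurd ho (by decide)
  · exact absurd ho (by decide)
  · exact absurd ho (by decide)
  · exact absurd ho (by decide)
  · exact absurd ho (by decide)
  · exact absurd ho (by decide)
  · exact U21 _ _ _ _ _ _ _ hs (by ring) h
  · exact absurd rfl h2
  · exact U23 _ _ _ _ _ _ _ hs (by ring) h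
  · exact U24 _ _ _ _ _ _ _ hs (by ring) h
  · exact absurd rfl h1
  · exact U31 _ _ _ _ _ _ _ hs (by ring) h
  · exact U32 _ _ _ _ _ _ _ hs (by ring) h
  · exact absurd rfl h2
  · exact U34 _ _ _ _ _ _ _ hs (by ring) h
  · exact absurd rfl h1
  · exact absurd ho (by decide)
  · exact absurd ho (by decide)
  · exact absurd ho (by decide)
  · exact absurd ho (by decide)
  · exact absurd ho (by decide)
  · exact U01 _ _ _ _ _ _ _ hs (by ring) h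
  · exact U02 _ _ _ _ _ _ _ hs (by ring) h
  · exact U03 _ _ _ _ _ _ _ hs (by ring) h
  · exact U04 _ _ _ _ _ _ _ hs (by ring) h
  · exact absurd rfl h1

end Pool.Agent.H.MP_e21d7a_al
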