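import Pool.Agent.H.MP_e21d7a_al.C

set_option autoImplicit false
set_option linter.unnecessarySeqFocus false

namespace Pool.Agent.H.MP_e21d7a_al

open Filter Topology Matrix

lemma KB_e (t o r : Fin 5) (ho : o = t ∨ cm t o) (h1 : t ≠ r) (h2 : ¬ cm t r) :
    KB t o 0 (Pi.single r 1) := by
  fin_cases t <;> fin_cases o <;> fin_cases r <;>
    first
    | exact absurd ho (by decide)
    | exact absurd rfl h1
    | exact absurd (by decide) h2
    | (simp [KB, FA, FB, F8]; try norm_num)

lemma sB_cm (u r : Fin 5) (h : cm u r) : sB u (Pi.single r 1) = Pi.single r 1 := by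
  ext a
  rcases h with rfl | rfl <;> fin_cases u <;> fin_cases a <;> simp [sB]

def st (s : ℕ → Fin 5) : ℕ → Fin 5 × Fin 5
  | 0 => (s 0 + 1, s 0 + 1)
  | j + 1 => (s j, nx (st s j).1 (st s j).2 (s j))

theorem sysB (M : CoxeterMatrix (Fin 5)) (hM : ∀ a b, cm a b → M a b = 2)
    (σ : Fin 5 → Matrix (Fin 5) (Fin 5) ℝ) (hσ : ∀ i v, σ i *ᵥ v = sB i v)
    (s : ℕ → Fin 5)
    (hr : ∀ k : ℕ, M.toCoxeterSystem.IsReduced (List.ofFn fun j : Fin k => s j)) :
    ∃! y, AccPt y (𝓟 (Set.range fun k => (∑ i, (W σ s k *ᵥ Pi.single (s k) (1 : ℝ)) i)⁻¹ •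
      (W σ s k *ᵥ Pi.single (s k) (1 : ℝ)))) := by
  have hs : ∀ k, s k ≠ s (k + 1) := fun k e => desc_not s hr (k + 1) (e ▸ desc_self s k)
  have hok : ∀ j, (st s j).2 = (st s j).1 ∨ cm (st s j).1 (st s j).2 := by
    intro j
    cases j with
    | zero => exact Or.inl rfl
    | succ j =>
      have : ∀ t o u : Fin 5, nx t o u = u ∨ cm u (nx t o u) := by decide
      exact this _ _ _
  have hd : ∀ j, Desc M s (j + 1) (st s (j + 1)).2 := by
    intro j
    induction j with
    | zero =>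
      have : ∀ u : Fin 5, nx (u + 1) (u + 1) u = u := by decide
      change Desc M s 1 (nx (s 0 + 1) (s 0 + 1) (s 0))
      rw [this]; exact desc_self s 0
    | succ j ih =>
      change Desc M s (j + 2) (nx (s j) (st s (j + 1)).2 (s (j + 1)))
      unfold nx
      split_ifs with h1 h2
      · exact desc_step s _ _ (desc_self s j) (hM _ _ h1)
      · exact desc_step s _ _ ih (hM _ _ h2)
      · exact desc_self s _
  have hn : ∀ j, s j ≠ (st s j).1 ∧ s j ≠ (st s j).2 := by
    intro j
    cases j with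
    | zero => simp [st]
    | succ j => exact ⟨(hs j).symm, fun e => desc_not s hr (j + 1) (e ▸ hd j)⟩
  have hstr := fun j => KB_str (st s j).1 (st s j).2 (s j) (hok j) (hn j).1 (hn j).2
  have hmono : ∀ t o c v, 0 ≤ c → KB t o c v → KB t o 0 v := fun t o c v hc h => by
    simpa using KB_lin t o c (-c) 1 v 0 zero_le_one h (KB_zero _ _ _ (by linarith))
  have hc : Cones σ s (fun j => KB (st s j).1 (st s j).2) 2 :=
    { hσ := fun i => by
        ext a b
        have := congrFun (hσ i (σ i *ᵥ Pi.single b 1)) a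
        rw [mulVec_mulVec, mulVec_single_one, hσ] at this
        rw [show (σ i * σ i) a b = (σ i * σ i).col b a from rfl, this]
        fin_cases i <;> fin_cases a <;> fin_cases b <;> simp [sB]
      hD := by norm_num
      add := fun j c c' v v' h h' => by simpa using KB_lin _ _ c c' 1 v v' zero_le_one h h'
      sm := fun j c r v hr h => by simpa using KB_lin _ _ c 0 r v 0 hr h (KB_zero _ _ _ le_rfl)
      mono := fun j => hmono _ _
      nrm := fun j => KB_nrm _ _
      inv := fun j v h => by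
        rw [hσ]
        refine hmono _ _ _ _ ?_ (hstr j v h).1
        have := (norm_nonneg v).trans (KB_nrm _ _ v h)
        linarith }
  have e0 : ∀ a : Fin 5, (Pi.single a 1 : Fin 5 → ℝ) ≠ 0 := fun a => by simp
  have back : ∀ (J : ℕ) (a : Fin 5) (k : ℕ), (¬ ∀ i, J ≤ i → i < k → cm (s i) a) →
      ¬ Desc M s k a → ∃ j, J ≤ j ∧ KB (st s j).1 (st s j).2 0 (Pi.single a 1) ∧
        W σ s k *ᵥ Pi.single a (1 : ℝ) = W σ s j *ᵥ Pi.single a (1 : ℝ) := by
    intro J a k
    induction k with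
    | zero => intro h; exact absurd (fun i _ hi => absurd hi (Nat.not_lt_zero _)) h
    | succ k ih =>
      intro h hnd
      have hJ : J ≤ k := by
        by_contra hlt
        exact h fun i h1 h2 => by omega
      by_cases hk : cm (s k) a
      · have sy : ∀ a b : Fin 5, cm a b → cm b a := by decide
        obtain ⟨j, h1, h2, h3⟩ := ih (fun h' => h fun i h1 h2 => by
          rcases Nat.lt_succ_iff_lt_or_eq.1 h2 with h3 | rfl
          · exact h' i h1 h3
          · exact hk) (fun h' => hnd (desc_step s _ _ h' (hM _ _ (sy _ _ hk))))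
        exact ⟨j, h1, h2, by rw [W_succ, ← mulVec_mulVec, hσ, sB_cm _ _ hk, h3]⟩
      · exact ⟨k + 1, by omega, KB_e _ _ _ (hok (k + 1)) (fun e => hnd (e ▸ desc_self s k)) hk, rfl⟩
  have hβ : ∀ J, ∀ᶠ k in atTop, ∃ j, J ≤ j ∧ ∃ x, KB (st s j).1 (st s j).2 0 x ∧ x ≠ 0 ∧
      W σ s k *ᵥ Pi.single (s k) (1 : ℝ) = W σ s j *ᵥ x := by
    intro J
    have ev : ∀ᶠ k in atTop, ¬ ∀ i, J ≤ i → i < k → cm (s i) (s k) := by
      by_cases hex : ∃ k0, J + 2 ≤ k0 ∧ ∀ i, J ≤ i → i < k0 → cm (s i) (s k0)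
      · obtain ⟨k0, h1, h2⟩ := hex
        filter_upwards [eventually_gt_atTop k0] with k hk h3
        have : ∀ x y a b : Fin 5, x ≠ y → cm x a → cm y a → cm x b → cm y b → ¬ cm a b := by
          decide
        exact this _ _ _ _ (hs J) (h2 J le_rfl (by omega)) (h2 (J + 1) (by omega) (by omega))
          (h3 J le_rfl (by omega)) (h3 (J + 1) (by omega) (by omega)) (h3 k0 (by omega) hk)
      · filter_upwards [eventually_ge_atTop (J + 2)] with k hk h3
        exact hex ⟨k, hk, h3⟩
    filter_upwards [ev] with k hk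
    obtain ⟨j, h1, h2, h3⟩ := back J (s k) k hk (desc_not s hr k)
    exact ⟨j, h1, _, h2, e0 _, h3⟩
  refine hc.fin ?_ hs ((hβ 0).mono fun k ⟨j, _, h⟩ => ⟨j, h⟩) ?_
  · intro i j hij
    have := congrFun (hσ i (Pi.single j 1)) j
    rw [mulVec_single_one] at this
    rw [show σ i j j = (σ i).col j j from rfl, this]
    simp [sB, hij.symm]
  · refine hc.conv 100000 (by norm_num) (fun j => ⟨j, j + 1, le_rfl, by omega, σ (s j),
      W_succ _ _ _, fun v hv => ?_⟩) _ hβ
    rw [hσ]
    exact hstr j v hv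

end Pool.Agent.H.MP_e21d7a_al
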